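import Pool.Agent.Helper70.MM.Goals5

set_option autoImplicit false

open MeasureTheory Set Metric
open scoped ENNReal RealInnerProductSpace Topology

namespace Pool.Agent.Helper42.MM5

open Pool.Agent.Helper70.MM Pool.Agent.Results.MP_91ee6f_gt

/-- the weight integral -/
lemma h42_inv {n : ℕ} (s : ℝ) (g : En n ≃ₗᵢ[ℝ] En n) (F : En n → ℝ) :
    ∫ y, F (g y) ∂(sphUnif n s) = ∫ y, F y ∂(sphUnif n s) := by
  have h := (fSPH2 n s).1 g
  conv_rhs => rw [← h]
  exact (g.toHomeomorph.measurableEmbedding.integral_map F).symm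

/-- the reflection which exchanges two vectors of the same norm -/
lemma h42_refl {n : ℕ} {u u' : En n} (h : ‖u‖ = ‖u'‖) : ∃ g : En n ≃ₗᵢ[ℝ] En n, g u = u' ∧
    ∀ e : En n, inner ℝ u e = 0 → inner ℝ u' e = 0 → g e = e := by
  refine ⟨(ℝ ∙ (u - u'))ᗮ.reflection, Submodule.reflection_sub h, fun e he he' => ?_⟩
  apply Submodule.reflection_mem_subspace_eq_self
  rw [Submodule.mem_orthogonal_singleton_iff_inner_right, inner_sub_left, he, he', sub_zero]

lemma h42_axis {n : ℕ} (s r : ℝ) (h F : ℝ → ℝ) {e u u' : En n} (hn : ‖u‖ = ‖u'‖)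
    (hu : inner ℝ u e = 0) (hu' : inner ℝ u' e = 0) :
    ∫ y, h (dist (r • e) y) * F (inner ℝ y u) ∂(sphUnif n s) =
      ∫ y, h (dist (r • e) y) * F (inner ℝ y u') ∂(sphUnif n s) := by
  obtain ⟨g, hg, hge⟩ := h42_refl hn
  rw [← h42_inv s g (fun y => h (dist (r • e) y) * F (inner ℝ y u'))]
  congr 1
  ext y
  have h1 : dist (r • e) (g y) = dist (r • e) y := by
    have : r • e = g (r • e) := by rw [map_smul, hge e hu hu']
    conv_lhs => rw [this]
    exact g.dist_map _ _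
  have h2 : inner ℝ (g y) u' = inner ℝ y u := by rw [← hg, g.inner_map_map]
  simp only [h1, h2]

lemma h42_noaxis {n : ℕ} (s : ℝ) (F : ℝ → ℝ) {u u' : En n} (hn : ‖u‖ = ‖u'‖) :
    ∫ y, F (inner ℝ y u) ∂(sphUnif n s) = ∫ y, F (inner ℝ y u') ∂(sphUnif n s) := by
  obtain ⟨g, hg, -⟩ := h42_refl hn
  rw [← h42_inv s g (fun y => F (inner ℝ y u'))]
  congr 1
  ext y
  have h2 : inner ℝ (g y) u' = inner ℝ y u := by rw [← hg, g.inner_map_map]
  simp only [h2]

/-- The general computation.  `w` is an integrable weight, `b` an orthonormal family such that the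
second and fourth weighted moments in directions of the same norm in a set `U` of vectors agree. -/
lemma h42_gen {n : ℕ} (μ : Measure (En n)) (w : En n → ℝ) {ι : Type} [Fintype ι] [DecidableEq ι]
    [Nonempty ι] (b : ι → En n) (hb : Orthonormal ℝ b) (U : Submodule ℝ (En n)) (hbU : ∀ i, b i ∈ U)
    (hint : ∀ q : En n → ℝ, Continuous q → Integrable (fun y => w y * q y) μ)
    (hinv : ∀ u ∈ U, ∀ u' ∈ U, ‖u‖ = ‖u'‖ → ∀ k : ℕ,
      ∫ y, w y * (inner ℝ y u) ^ k ∂μ = ∫ y, w y * (inner ℝ y u') ^ k ∂μ)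
    (u v : En n) (hu : u ∈ U) (hv : v ∈ U) (hu1 : ‖u‖ = 1) (hv1 : ‖v‖ = 1)
    (huv : inner ℝ u v = 0) :
    (Fintype.card ι : ℝ) * ∫ y, w y * (inner ℝ y u) ^ 2 ∂μ =
      ∫ y, w y * (∑ i, (inner ℝ y (b i)) ^ 2) ∂μ ∧
    (Fintype.card ι : ℝ) * ((Fintype.card ι : ℝ) + 2) *
      ∫ y, w y * ((inner ℝ y u) ^ 2 * (inner ℝ y v) ^ 2) ∂μ =
      ∫ y, w y * (∑ i, (inner ℝ y (b i)) ^ 2) ^ 2 ∂μ ∧
    (Fintype.card ι : ℝ) * ((Fintype.card ι : ℝ) + 2) * ∫ y, w y * (inner ℝ y u) ^ 4 ∂μ =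
      3 * ∫ y, w y * (∑ i, (inner ℝ y (b i)) ^ 2) ^ 2 ∂μ := by
  -- the mixed moment
  have hmix : ∀ p q : En n, p ∈ U → q ∈ U → ‖p‖ = 1 → ‖q‖ = 1 → inner ℝ p q = 0 →
      3 * ∫ y, w y * ((inner ℝ y p) ^ 2 * (inner ℝ y q) ^ 2) ∂μ =
        ∫ y, w y * (inner ℝ y u) ^ 4 ∂μ := by
    intro p q hp hq hp1 hq1 hpq
    have hP := hinv p hp u hu (by rw [hp1, hu1]) 4
    have hQ := hinv q hq u hu (by rw [hq1, hu1]) 4
    have hn1 : ‖p + q‖ = ‖Real.sqrt 2 • u‖ := by
      rw [norm_smul, hu1, mul_one, Real.norm_of_nonneg (Real.sqrt_nonneg 2)]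
      have : ‖p + q‖ ^ 2 = 2 := by
        rw [norm_add_sq_real, hp1, hq1, hpq]; norm_num
      rw [← this, Real.sqrt_sq (norm_nonneg _)]
    have hn2 : ‖p - q‖ = ‖Real.sqrt 2 • u‖ := by
      rw [norm_smul, hu1, mul_one, Real.norm_of_nonneg (Real.sqrt_nonneg 2)]
      have : ‖p - q‖ ^ 2 = 2 := by
        rw [norm_sub_sq_real, hp1, hq1, hpq]; norm_num
      rw [← this, Real.sqrt_sq (norm_nonneg _)]
    have h1 := hinv (p + q) (U.add_mem hp hq) _ (U.smul_mem (Real.sqrt 2) hu) hn1 4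
    have h2 := hinv (p - q) (U.sub_mem hp hq) _ (U.smul_mem (Real.sqrt 2) hu) hn2 4
    have h3 : ∫ y, w y * (inner ℝ y (Real.sqrt 2 • u)) ^ 4 ∂μ =
        4 * ∫ y, w y * (inner ℝ y u) ^ 4 ∂μ := by
      rw [← integral_const_mul]
      congr 1
      ext y
      rw [inner_smul_right, mul_pow]
      have : Real.sqrt 2 ^ 4 = 4 := by
        have h : Real.sqrt 2 ^ 2 = 2 := Real.sq_sqrt (by norm_num)
        calc Real.sqrt 2 ^ 4 = (Real.sqrt 2 ^ 2) ^ 2 := by ring
          _ = 4 := by rw [h]; norm_num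
      rw [this]; ring
    have i1 := hint (fun y => (inner ℝ y (p + q)) ^ 4) (by fun_prop)
    have i2 := hint (fun y => (inner ℝ y (p - q)) ^ 4) (by fun_prop)
    have i3 := hint (fun y => (inner ℝ y p) ^ 4) (by fun_prop)
    have i4 := hint (fun y => (inner ℝ y q) ^ 4) (by fun_prop)
    have i5 := hint (fun y => (inner ℝ y p) ^ 2 * (inner ℝ y q) ^ 2) (by fun_prop)
    have h4 : ∫ y, w y * (inner ℝ y (p + q)) ^ 4 ∂μ + ∫ y, w y * (inner ℝ y (p - q)) ^ 4 ∂μ =
        2 * ∫ y, w y * (inner ℝ y p) ^ 4 ∂μ + 2 * ∫ y, w y * (inner ℝ y q) ^ 4 ∂μ +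
          12 * ∫ y, w y * ((inner ℝ y p) ^ 2 * (inner ℝ y q) ^ 2) ∂μ := by
      have e1 : (fun y => w y * (inner ℝ y (p + q)) ^ 4 + w y * (inner ℝ y (p - q)) ^ 4) =
          fun y => (2 * (w y * (inner ℝ y p) ^ 4) + 2 * (w y * (inner ℝ y q) ^ 4)) +
            12 * (w y * ((inner ℝ y p) ^ 2 * (inner ℝ y q) ^ 2)) := by
        ext y
        simp only [inner_add_right, inner_sub_right]
        ring
      have e3 : Integrable (fun y => 2 * (w y * (inner ℝ y p) ^ 4) +
          2 * (w y * (inner ℝ y q) ^ 4)) μ := (i3.const_mul 2).add (i4.const_mul 2)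
      rw [← integral_add i1 i2, e1, integral_add e3 (i5.const_mul 12),
        integral_add (i3.const_mul 2) (i4.const_mul 2), integral_const_mul, integral_const_mul,
        integral_const_mul]
    rw [h1, h2, h3, hP, hQ] at h4
    linarith
  have hcard : ∀ i, ∫ y, w y * (inner ℝ y (b i)) ^ 2 ∂μ = ∫ y, w y * (inner ℝ y u) ^ 2 ∂μ :=
    fun i => hinv _ (hbU i) _ hu (by rw [hb.1 i, hu1]) 2
  have hcard4 : ∀ i, ∫ y, w y * (inner ℝ y (b i)) ^ 4 ∂μ = ∫ y, w y * (inner ℝ y u) ^ 4 ∂μ :=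
    fun i => hinv _ (hbU i) _ hu (by rw [hb.1 i, hu1]) 4
  have hJ := hmix u v hu hv hu1 hv1 huv
  have e2 : ∫ y, w y * (∑ i, (inner ℝ y (b i)) ^ 2) ^ 2 ∂μ =
      (Fintype.card ι : ℝ) * ((Fintype.card ι : ℝ) + 2) / 3 *
        ∫ y, w y * (inner ℝ y u) ^ 4 ∂μ := by
    have h1 : ∀ y, w y * (∑ i, (inner ℝ y (b i)) ^ 2) ^ 2 =
        ∑ i, ∑ j, w y * ((inner ℝ y (b i)) ^ 2 * (inner ℝ y (b j)) ^ 2) := by
      intro y
      rw [sq, Finset.sum_mul_sum, Finset.mul_sum]
      refine Finset.sum_congr rfl fun i _ => ?_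
      rw [Finset.mul_sum]
    simp only [h1]
    rw [integral_finsetSum _ (fun i _ => integrable_finsetSum _ (fun j _ =>
      hint (fun y => (inner ℝ y (b i)) ^ 2 * (inner ℝ y (b j)) ^ 2) (by fun_prop)))]
    have h2 : ∀ i, ∫ y, ∑ j, w y * ((inner ℝ y (b i)) ^ 2 * (inner ℝ y (b j)) ^ 2) ∂μ =
        ((Fintype.card ι : ℝ) + 2) / 3 * ∫ y, w y * (inner ℝ y u) ^ 4 ∂μ := by
      intro i
      rw [integral_finsetSum _ (fun j _ =>
        hint (fun y => (inner ℝ y (b i)) ^ 2 * (inner ℝ y (b j)) ^ 2) (by fun_prop)),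
        ← Finset.add_sum_erase _ _ (Finset.mem_univ i)]
      have h3 : ∀ j ∈ Finset.univ.erase i,
          ∫ y, w y * ((inner ℝ y (b i)) ^ 2 * (inner ℝ y (b j)) ^ 2) ∂μ =
            1 / 3 * ∫ y, w y * (inner ℝ y u) ^ 4 ∂μ := by
        intro j hj
        have hij : i ≠ j := (Finset.ne_of_mem_erase hj).symm
        have := hmix (b i) (b j) (hbU i) (hbU j) (hb.1 i) (hb.1 j) (hb.2 hij)
        linarith
      rw [Finset.sum_congr rfl h3, Finset.sum_const, Finset.card_erase_of_mem (Finset.mem_univ i),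
        Finset.card_univ, nsmul_eq_mul]
      have h4 : ∫ y, w y * ((inner ℝ y (b i)) ^ 2 * (inner ℝ y (b i)) ^ 2) ∂μ =
          ∫ y, w y * (inner ℝ y u) ^ 4 ∂μ := by
        rw [← hcard4 i]
        congr 1
        ext y
        ring
      rw [h4, Nat.cast_sub Fintype.card_pos]
      push_cast
      ring
    rw [Finset.sum_congr rfl (fun i _ => h2 i), Finset.sum_const, Finset.card_univ, nsmul_eq_mul]
    ring
  refine ⟨?_, ?_, ?_⟩
  · simp only [Finset.mul_sum]
    rw [integral_finsetSum _ (fun i _ => hint (fun y => (inner ℝ y (b i)) ^ 2) (by fun_prop)),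
      Finset.sum_congr rfl (fun i _ => hcard i), Finset.sum_const, Finset.card_univ, nsmul_eq_mul]
  · rw [e2, ← hJ]
    ring
  · rw [e2]
    ring

lemma h42_int {n : ℕ} (hn : 1 ≤ n) {s : ℝ} (hs : 0 ≤ s) {w : En n → ℝ}
    (hw : Integrable w (sphUnif n s)) (q : En n → ℝ) (hq : Continuous q) :
    Integrable (fun y => w y * q y) (sphUnif n s) := by
  obtain ⟨C, hC⟩ := (isCompact_sphere (0 : En n) s).exists_bound_of_continuousOn hq.continuousOn
  refine hw.mul_bdd (c := C) hq.aestronglyMeasurable ?_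
  filter_upwards [(fSPH1 n hn s).2.1 hs] with y hy
  exact hC y (by simpa using hy)

lemma h42_basis {n : ℕ} (i0 : Fin n) (e : En n) (he : ‖e‖ = 1) :
    ∃ b : OrthonormalBasis (Fin n) ℝ (En n), b i0 = e := by
  have hv : Orthonormal ℝ (({i0} : Set (Fin n)).restrict (fun _ => e)) := by
    refine ⟨fun i => he, fun i j hij => ?_⟩
    exact absurd (Subsingleton.elim i j) hij
  obtain ⟨b, hb⟩ := hv.exists_orthonormalBasis_extension_of_card_eq
    (by simp : Module.finrank ℝ (En n) = Fintype.card (Fin n))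
  exact ⟨b, hb i0 rfl⟩

theorem avg : AVG := by
  intro n hn e e' e'' ho s r hs
  have he : ‖e‖ = 1 := ho.1 0
  have he' : ‖e'‖ = 1 := ho.1 1
  have he'' : ‖e''‖ = 1 := ho.1 2
  have hee' : inner ℝ e e' = 0 := ho.2 (show (0 : Fin 3) ≠ 1 by decide)
  have hee'' : inner ℝ e e'' = 0 := ho.2 (show (0 : Fin 3) ≠ 2 by decide)
  have he'e'' : inner ℝ e' e'' = 0 := ho.2 (show (1 : Fin 3) ≠ 2 by decide)
  have hn1 : 1 ≤ n := by omega
  have hn3 : (3 : ℝ) ≤ n := by exact_mod_cast hn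
  set i0 : Fin n := ⟨0, by omega⟩ with hi0
  obtain ⟨b, hb⟩ := h42_basis i0 e he
  haveI : IsProbabilityMeasure (sphUnif n s) := (fSPH1 n hn1 s).1
  have hnorm := (fSPH1 n hn1 s).2.1 hs
  refine ⟨?_, ?_⟩
  · intro h hh
    have hsum : ∀ y : En n, ∑ i : {i : Fin n // i ≠ i0}, (inner ℝ y (b i.1)) ^ 2 = rh e y := by
      intro y
      have h1 : ∑ i, (inner ℝ y (b i)) ^ 2 = ‖y‖ ^ 2 := b.sum_sq_inner_left y
      have h2 : ∑ i : {i : Fin n // i ≠ i0}, (inner ℝ y (b i.1)) ^ 2 =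
          ∑ i ∈ Finset.univ.erase i0, (inner ℝ y (b i)) ^ 2 :=
        (Finset.sum_subtype (Finset.univ.erase i0) (by simp)
          (fun i => (inner ℝ y (b i)) ^ 2)).symm
      rw [h2]
      have h3 := Finset.add_sum_erase Finset.univ (fun i => (inner ℝ y (b i)) ^ 2)
        (Finset.mem_univ i0)
      rw [h1, hb] at h3
      unfold rh
      linarith
    have hcard : (Fintype.card {i : Fin n // i ≠ i0} : ℝ) = (n : ℝ) - 1 := by
      have : Fintype.card {i : Fin n // i ≠ i0} = n - 1 := by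
        simp
      rw [this, Nat.cast_sub hn1, Nat.cast_one]
    haveI : Nonempty {i : Fin n // i ≠ i0} := ⟨⟨⟨1, by omega⟩, by
      rw [hi0]
      intro h
      exact absurd (congrArg Fin.val h) (by norm_num)⟩⟩
    have key := h42_gen (sphUnif n s) (fun y => h (dist (r • e) y))
      (fun i : {i : Fin n // i ≠ i0} => b i.1)
      (b.orthonormal.comp _ Subtype.val_injective) (ℝ ∙ e)ᗮ
      (fun i => by
        rw [Submodule.mem_orthogonal_singleton_iff_inner_right, ← hb]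
        exact b.orthonormal.2 i.2.symm)
      (fun q hq => h42_int hn1 hs hh q hq)
      (fun u hu u' hu' huu k => by
        rw [Submodule.mem_orthogonal_singleton_iff_inner_left] at hu hu'
        exact h42_axis s r h (fun x => x ^ k) huu hu hu')
      e' e'' (by rwa [Submodule.mem_orthogonal_singleton_iff_inner_right])
      (by rwa [Submodule.mem_orthogonal_singleton_iff_inner_right]) he' he'' he'e''
    obtain ⟨k1, k2, -⟩ := key
    simp only [hsum] at k1 k2
    rw [hcard] at k1 k2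
    have hn1' : (n : ℝ) - 1 ≠ 0 := by linarith
    have hn2' : (n : ℝ) - 1 + 2 ≠ 0 := by linarith
    constructor
    · have : ∀ y : En n, h (dist (r • e) y) * (rh e y / ((n : ℝ) - 1)) =
          ((n : ℝ) - 1)⁻¹ * (h (dist (r • e) y) * rh e y) := fun y => by field_simp
      simp only [this]
      rw [integral_const_mul, ← k1, inv_mul_cancel_left₀ hn1']
    · have : ∀ y : En n, h (dist (r • e) y) * (rh e y ^ 2 / (((n : ℝ) - 1) * ((n : ℝ) + 1))) =
          (((n : ℝ) - 1) * ((n : ℝ) - 1 + 2))⁻¹ * (h (dist (r • e) y) * rh e y ^ 2) := fun y => by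
        have e1 : (n : ℝ) - 1 + 2 = n + 1 := by ring
        rw [e1, div_eq_mul_inv]
        ring
      simp only [this]
      rw [integral_const_mul, ← k2, inv_mul_cancel_left₀ (mul_ne_zero hn1' hn2')]
  · haveI : Nonempty (Fin n) := ⟨i0⟩
    have key := h42_gen (sphUnif n s) (fun _ => 1) (fun i : Fin n => b i) b.orthonormal ⊤
      (fun i => Submodule.mem_top)
      (fun q hq => h42_int hn1 hs (integrable_const _) q hq)
      (fun u _ u' _ huu k => by
        simp only [one_mul]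
        exact h42_noaxis s (fun x => x ^ k) huu)
      e e' Submodule.mem_top Submodule.mem_top he he' hee'
    obtain ⟨k1, -, k3⟩ := key
    have hsum : ∀ y : En n, ∑ i, (inner ℝ y (b i)) ^ 2 = ‖y‖ ^ 2 := fun y => b.sum_sq_inner_left y
    simp only [hsum, one_mul, Fintype.card_fin] at k1 k3
    have hc2 : ∫ y, ‖y‖ ^ 2 ∂(sphUnif n s) = s ^ 2 := by
      rw [integral_congr_ae (g := fun _ => s ^ 2) (by
        filter_upwards [hnorm] with y hy
        rw [hy])]
      simp
    have hc4 : ∫ y, (‖y‖ ^ 2) ^ 2 ∂(sphUnif n s) = s ^ 4 := by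
      rw [integral_congr_ae (g := fun _ => s ^ 4) (by
        filter_upwards [hnorm] with y hy
        rw [hy]; ring)]
      simp
    rw [hc2] at k1
    rw [hc4] at k3
    have i2 : Integrable (fun y : En n => (inner ℝ y e) ^ 2) (sphUnif n s) := by
      have := h42_int hn1 hs (w := fun _ => 1) (integrable_const _)
        (fun y : En n => (inner ℝ y e) ^ 2) (by fun_prop)
      simpa using this
    have i4 : Integrable (fun y : En n => (inner ℝ y e) ^ 4) (sphUnif n s) := by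
      have := h42_int hn1 hs (w := fun _ => 1) (integrable_const _)
        (fun y : En n => (inner ℝ y e) ^ 4) (by fun_prop)
      simpa using this
    have hn0 : (n : ℝ) ≠ 0 := by linarith
    have hn2 : (n : ℝ) + 2 ≠ 0 := by linarith
    constructor
    · have h1 : ∫ y, rh e y ∂(sphUnif n s) = s ^ 2 - ∫ y, (inner ℝ y e) ^ 2 ∂(sphUnif n s) := by
        rw [integral_congr_ae (g := fun y => s ^ 2 - (inner ℝ y e) ^ 2) (by
          filter_upwards [hnorm] with y hy
          unfold rh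
          rw [hy])]
        rw [integral_sub (integrable_const _) i2]
        simp
      rw [h1]
      field_simp
      linear_combination (-1 : ℝ) * k1
    · have h1 : ∫ y, rh e y ^ 2 ∂(sphUnif n s) = s ^ 4 -
          2 * s ^ 2 * ∫ y, (inner ℝ y e) ^ 2 ∂(sphUnif n s) +
          ∫ y, (inner ℝ y e) ^ 4 ∂(sphUnif n s) := by
        rw [integral_congr_ae (g := fun y => (s ^ 4 - 2 * s ^ 2 * (inner ℝ y e) ^ 2) +
          (inner ℝ y e) ^ 4) (by
          filter_upwards [hnorm] with y hy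
          unfold rh
          rw [hy]; ring)]
        have i5 : Integrable (fun y : En n => s ^ 4 - 2 * s ^ 2 * (inner ℝ y e) ^ 2)
            (sphUnif n s) := (integrable_const _).sub (i2.const_mul _)
        rw [integral_add i5 i4, integral_sub (integrable_const _) (i2.const_mul _),
          integral_const_mul]
        simp
      rw [h1]
      field_simp
      linear_combination k3 - 2 * s ^ 2 * ((n : ℝ) + 2) * k1

end Pool.Agent.Helper42.MM5
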